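import Pool.Agent.H48.CV.ConvD
import Pool.Agent.H48.CV.StbU
import Pool.Agent.H48.NE.Boot
import Pool.Agent.H48.CV.ThmH
import Pool.Agent.H71.VM.NE0Near0
import Pool.Agent.H71.VM.NEStb2

/-!
# Openness of the basin of equilibrium, soft and hard potentials: the core

As H85/OP/OpA with `0 ≤ γ + 2 s` in place of `0 ≤ γ`; Hoelder continuity for short times (`ThmL`, H48/PR/ThmL for `γ ≥ 0`) is a
hypothesis here. -/

set_option autoImplicit false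

open MeasureTheory Set Filter Topology Pool.Agent.H25.Kin Pool.Agent.H48.PL Pool.Agent.H48.PD Pool.Agent.H25.PN
open Pool.Agent.H82.BK Pool.Agent.H82.CM Pool.Agent.H48.PR Pool.Agent.H48.PS Pool.Agent.H71.PD Pool.Agent.H93.CM
open Pool.Agent.H48.NE (mx)
open Pool.Agent.H71.VM (near_eq20 stb2)

namespace Pool.Agent.H85.OV

variable {d : ℕ}

/-- Hoelder continuity in the velocity for short times (statement of `thmL`) -/
def ThmL (d : ℕ) (γ s : ℝ) (b : ℝ → ℝ) : Prop :=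
  ∀ α : ℝ, 2 * s < α → α ≤ 1 → ∀ p : ℕ, d + 10 ≤ p → ∀ (T : ℝ) (f : ℝ → Vec d → Vec d → ℝ),
    IsBoltzmannSol γ b T f → 0 < T → (∀ x, 0 < ∫ v, f 0 x v) → ∀ C₀ : ℝ,
    (∀ x v ξ η : Vec d, len η ≤ 1 →
      |f 0 (x + ξ) (v + η) - f 0 x v| ≤ C₀ * (nsq ξ + nsq η) ^ (α / 2) * Wp p v) →
    ∃ t₁ : ℝ, 0 < t₁ ∧ t₁ < T ∧ ∃ L : ℝ, ∀ t ∈ Icc 0 t₁, ∀ x v η : Vec d, len η ≤ 1 →
      |f t x (v + η) - f t x v| ≤ L * len η ^ α * Wp p v

/-- Hoelder bounds with all weights on `(0,T₂]` from those near `t = 0` -/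
private lemma OvA_lbh {γ s C Ca : ℝ} {b : ℝ → ℝ} (_H : Hyp d γ s b C Ca) {α' α : ℝ} (hα0 : 0 < α')
    (hα2 : α' < α) (hα3 : α' ≤ 1) {p : ℕ} {T : ℝ} {f : ℝ → Vec d → Vec d → ℝ}
    (hf : IsBoltzmannSol γ b T f) {t₁ L : ℝ} (ht₁ : 0 < t₁)
    (hreg : ∀ t ∈ Icc 0 t₁, ∀ x v η : Vec d, len η ≤ 1 →
      |f t x (v + η) - f t x v| ≤ L * len η ^ α * Wp p v) {T₂ : ℝ} (ht₁T : t₁ ≤ T₂) (hT₂T : T₂ < T) :
    ∃ Cl : ℕ → ℝ, ∀ t ∈ Ioc 0 T₂, ∀ x, LBH α' 1 Cl (f t x) := by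
  have hf' : IsClassicalSol T (fun t x => boltzQ γ b (f t x)) f := hf
  choose C1 hC1 using hf'.decay T₂ hT₂T
  have fb1 : ∀ τ ∈ Ioc 0 T₂, ∀ x, FB C1 (f τ x) := fun τ hτ x =>
    ⟨IsClassicalSol.nice hf' ⟨hτ.1, hτ.2.trans_lt hT₂T⟩ x,
      fun v => hf'.nonneg τ ⟨hτ.1.le, hτ.2.trans_lt hT₂T⟩ x v,
      fun N v => hC1 N τ ⟨hτ.1.le, hτ.2⟩ x v⟩
  obtain ⟨Cn, hCn, hnear⟩ := lbh_near (d := d) C1 p hα0 hα2 L
  have hreg2 := reg_shift hf' ht₁ (ht₁T.trans_lt hT₂T)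
  choose C3 hC3 using hreg2 (T₂ - t₁) (by linarith)
  set Cm : ℕ → ℝ := fun N => max (C1 N) (C3 N) with hCm
  set Cl : ℕ → ℝ := fun N => max (Cn N) (2 * 3 ^ N * Cm N) with hCl
  refine ⟨Cl, ?_⟩
  intro τ hτ x
  rcases le_or_gt τ t₁ with h | h
  · have h3 := hnear (f τ x) (fb1 τ hτ x) (hreg τ ⟨hτ.1.le, h⟩ x)
    intro N u v huv
    refine (h3 N u v huv).trans ?_
    exact mul_le_mul_of_nonneg_right (mul_le_mul_of_nonneg_left (le_max_left _ _) zero_le_one)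
      (Real.rpow_nonneg (len_nonneg _) _)
  · have fbm : FB Cm (f τ x) := FB_mono (fb1 τ hτ x) fun N => le_max_left _ _
    have e1 : t₁ + (τ - t₁) = τ := by ring
    have h3 := lbh_of (κ := 0) (t := 1) (α := α') fbm one_pos (fun N v => by
      have h4 := hC3 N (τ - t₁) ⟨by linarith, by linarith [hτ.2]⟩ x v
      simp only [e1] at h4
      rw [Real.rpow_zero, one_mul]
      exact h4.trans (le_max_right _ _)) hα0.le hα3
    rw [Real.one_rpow] at h3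
    intro N u v huv
    refine (h3 N u v huv).trans ?_
    exact mul_le_mul_of_nonneg_right (mul_le_mul_of_nonneg_left (le_max_right _ _) zero_le_one)
      (Real.rpow_nonneg (len_nonneg _) _)

theorem stabO {s γ : ℝ} {b : ℝ → ℝ} (hL : ThmL d γ s b) (hd : 2 ≤ d) (hs : 0 < s) (h0 : 0 ≤ γ + 2 * s) (hs1 : 2 * s < 1)
    (h2 : γ + 2 * s ≤ 2) (hb : IsKernel d s b) {T₀ T₁ : ℝ} (hT₁ : T₀ < T₁)
    {g : ℝ → Vec d → Vec d → ℝ} (hg : IsBoltzmannSol γ b T₁ g) (hpos : ∀ x, 0 < ∫ v, g 0 x v)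
    (hol : ∃ α : ℝ, 2 * s < α ∧ α ≤ 1 ∧ HolData α (g 0)) {m : ℝ}
    (hm : 0 < m) (hmass : ∀ t ∈ Ico 0 T₁, ∀ x, m ≤ ∫ v, g t x v) (B : ℕ → ℝ) {p : ℕ}
    (hp : d + 10 ≤ p) {η : ℝ} (hη : 0 < η) :
    ∃ ε > 0, ∃ U : ℕ → ℝ, ∀ T ≤ T₀, ∀ f : ℝ → Vec d → Vec d → ℝ, IsBoltzmannSol γ b T f →
      (∀ N x v, (1 + ‖v‖) ^ N * f 0 x v ≤ B N) → (∀ x v, |f 0 x v - g 0 x v| ≤ ε) →
      ∀ t ∈ Ico 0 T, ∀ x, (∀ N v, (1 + ‖v‖) ^ N * f t x v ≤ U N) ∧ m / 2 ≤ ∫ v, f t x v ∧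
        ∀ v, |f t x v - g t x v| ≤ η * Wp p v := by
  rcases lt_or_ge T₀ 0 with hT₀ | hT₀
  · exact ⟨1, one_pos, B, fun T hT f _ _ _ t ht => absurd (ht.1.trans_lt ht.2) (by linarith)⟩
  have hT : 0 < T₁ := hT₀.trans_lt hT₁
  obtain ⟨C, Ca, cb, HL⟩ := exists_hypL hd hs (by linarith) (by linarith : 0 ≤ γ + 2 * s) h2 hb
  have hmass' : ∀ t ∈ Icc 0 T₀, ∀ x, m ≤ ∫ v, g t x v := fun t ht x =>
    hmass t ⟨ht.1, ht.2.trans_lt hT₁⟩ x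
  obtain ⟨α, hα, hα1, hh⟩ := hol
  have hα' : 2 * s < (2 * s + α) / 2 := by linarith
  have hα'' : (2 * s + α) / 2 < α := by linarith
  obtain ⟨C₀, hC₀⟩ := hol_data (fun x v => hg.nonneg 0 ⟨le_rfl, hT⟩ x v)
    (fun N => by
      obtain ⟨B, hB⟩ := hg.decay 0 hT N
      exact ⟨B, fun x v => hB 0 ⟨le_rfl, le_rfl⟩ x v⟩) (by linarith) hα'' hh (d + 10)
  obtain ⟨t₁, ht₁, ht₁T, L, hL⟩ := hL _ hα' (by linarith) (d + 10) (le_refl (d + 10)) _ _ hg hT hpos _ hC₀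
  obtain ⟨Cg, hCg⟩ := OvA_lbh HL.H (α' := (2 * s + (2 * s + α) / 2) / 2) (by linarith) (by linarith)
    (by linarith) hg ht₁ hL (le_max_right T₀ t₁) (max_lt hT₁ ht₁T)
  exact stb2 HL hb h0 hs1 (α := (2 * s + (2 * s + α) / 2) / 2) (by linarith)
    (by linarith) hp hT₁ hg (Cg := Cg) (fun t ht x => hCg t ⟨ht.1, ht.2.trans (le_max_left _ _)⟩ x)
    hm hmass' B hη

/-- pointwise decay from a weighted bound -/
private lemma OvA_le {q : ℕ} {v : Vec d} {a c : ℝ} (ha : 0 ≤ a)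
    (h : (1 + ‖v‖) ^ (2 * q) * a ≤ c) : a ≤ ((d : ℝ) + 1) ^ q * |c| * Wp q v := by
  have hn := norm_nonneg v
  have h2 : 1 + nsq v ≤ ((d : ℝ) + 1) * (1 + ‖v‖) ^ 2 := by
    have h3 := sq_le v
    have h4 : (0 : ℝ) ≤ d := Nat.cast_nonneg _
    nlinarith [mul_nonneg h4 hn]
  have h5 : (1 + nsq v) ^ q ≤ ((d : ℝ) + 1) ^ q * (1 + ‖v‖) ^ (2 * q) := by
    rw [pow_mul, ← mul_pow]
    exact pow_le_pow_left₀ (by have := sq_nonneg' v; linarith) h2 q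
  have h6 : 0 < (1 + nsq v) ^ q := by
    have := sq_nonneg' v
    positivity
  rw [Wp, ← div_eq_mul_inv, le_div_iff₀ h6]
  calc a * (1 + nsq v) ^ q ≤ a * (((d : ℝ) + 1) ^ q * (1 + ‖v‖) ^ (2 * q)) :=
        mul_le_mul_of_nonneg_left h5 ha
    _ = ((d : ℝ) + 1) ^ q * ((1 + ‖v‖) ^ (2 * q) * a) := by ring
    _ ≤ ((d : ℝ) + 1) ^ q * |c| := by
        gcongr
        exact h.trans (le_abs_self c)

/-- the weights are integrable -/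
private lemma OvA_Wint {q : ℕ} (hq : d + 1 ≤ 2 * q) : Integrable (Wp q : Vec d → ℝ) := by
  refine Integrable.mono' ((integrable_wt (d := d)).const_mul ((2 : ℝ) ^ q))
    (Wp_cont q).aestronglyMeasurable (Eventually.of_forall fun v => ?_)
  have hn := norm_nonneg v
  have h1 : (1 + ‖v‖) ^ 2 ≤ 2 * (1 + nsq v) := by
    have := norm_sq_le_sq v
    nlinarith [sq_nonneg (1 - ‖v‖)]
  have h2 : (1 + ‖v‖) ^ (d + 1) ≤ 2 ^ q * (1 + nsq v) ^ q := by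
    calc (1 + ‖v‖) ^ (d + 1) ≤ (1 + ‖v‖) ^ (2 * q) := pow_le_pow_right₀ (by linarith) hq
      _ = ((1 + ‖v‖) ^ 2) ^ q := pow_mul _ _ _
      _ ≤ (2 * (1 + nsq v)) ^ q := pow_le_pow_left₀ (by positivity) h1 q
      _ = 2 ^ q * (1 + nsq v) ^ q := mul_pow _ _ _
  have h3 : 0 < (1 + nsq v) ^ q := by
    have := sq_nonneg' v
    positivity
  rw [Real.norm_of_nonneg (Wp_pos q v).le, Wp, wt, ← div_eq_mul_inv, ← one_div,
    div_le_div_iff₀ h3 (by positivity), one_mul]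
  exact h2

/-- slices are integrable -/
private lemma OvA_int {T : ℝ} {Q f : ℝ → Vec d → Vec d → ℝ} (hf : IsClassicalSol T Q f) {t : ℝ}
    (ht : t ∈ Ico 0 T) (x : Vec d) : Integrable (f t x) := by
  obtain ⟨C, hC⟩ := hf.decay t ht.2 (2 * (d + 1))
  have hc : Continuous (f t x) := by
    have h1 : Continuous fun v : Vec d => ((t, x, v) : ℝ × Vec d × Vec d) := by fun_prop
    exact hf.isCont.comp_continuous h1 fun v => ⟨ht, mem_univ _⟩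
  refine Integrable.mono' ((OvA_Wint (d := d) (q := d + 1) (by omega)).const_mul
    (((d : ℝ) + 1) ^ (d + 1) * |C|)) hc.aestronglyMeasurable
    (Eventually.of_forall fun v => ?_)
  have h0 := hf.nonneg t ht x v
  rw [Real.norm_of_nonneg h0]
  exact OvA_le h0 (hC t ⟨ht.1, le_rfl⟩ x v)

/-- the mass outside a ball is small -/
private lemma OvA_tail {p : ℕ} (hp : d + 10 ≤ p) {A δ : ℝ} (hA : 0 ≤ A) (hδ : 0 < δ) :
    ∃ R : ℝ, ∀ G : Vec d → ℝ, Integrable G → (∀ v, G v ≤ A * Wp p v) →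
      (∫ v, G v) - δ ≤ ∫ z in {z : Vec d | nsq z ≤ R ^ 2}, G z := by
  obtain ⟨q, rfl⟩ : ∃ q, p = q + 1 := ⟨p - 1, by omega⟩
  have hi := OvA_Wint (d := d) (q := q) (by omega)
  obtain ⟨I, hI⟩ : ∃ I : ℝ, I = ∫ v : Vec d, Wp q v := ⟨_, rfl⟩
  obtain ⟨R, hR⟩ : ∃ R : ℝ, R = A * I / δ := ⟨_, rfl⟩
  refine ⟨R, fun G hG hGA => ?_⟩
  have hS : MeasurableSet {z : Vec d | nsq z ≤ R ^ 2} :=
    (isClosed_le continuous_sq continuous_const).measurableSet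
  have h1 := integral_add_compl hS hG
  have hR2 : 0 < 1 + R ^ 2 := by positivity
  have h2 : ∫ z in {z : Vec d | nsq z ≤ R ^ 2}ᶜ, G z ≤
      ∫ z in {z : Vec d | nsq z ≤ R ^ 2}ᶜ, A / (1 + R ^ 2) * Wp q z := by
    refine setIntegral_mono_on hG.integrableOn (hi.const_mul _).integrableOn hS.compl
      fun z hz => (hGA z).trans ?_
    have hz' : R ^ 2 < nsq z := not_le.1 hz
    have h3 : Wp (q + 1) z ≤ Wp q z / (1 + R ^ 2) := by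
      have h4 : 0 < 1 + nsq z := by linarith [sq_nonneg R]
      have h5 : Wp (q + 1) z = Wp q z / (1 + nsq z) := by
        unfold Wp
        rw [pow_succ, mul_inv, div_eq_mul_inv]
      rw [h5]
      exact div_le_div_of_nonneg_left (Wp_pos q z).le hR2 (by linarith)
    calc A * Wp (q + 1) z ≤ A * (Wp q z / (1 + R ^ 2)) := mul_le_mul_of_nonneg_left h3 hA
      _ = A / (1 + R ^ 2) * Wp q z := by ring
  have h3 : ∫ z in {z : Vec d | nsq z ≤ R ^ 2}ᶜ, A / (1 + R ^ 2) * Wp q z ≤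
      ∫ z : Vec d, A / (1 + R ^ 2) * Wp q z :=
    setIntegral_le_integral (hi.const_mul _) (Eventually.of_forall fun z =>
      mul_nonneg (div_nonneg hA hR2.le) (Wp_pos q z).le)
  have e3 : ∫ z : Vec d, A / (1 + R ^ 2) * Wp q z = A / (1 + R ^ 2) * I := by
    rw [integral_const_mul, hI]
  rw [e3] at h3
  have h4 : A / (1 + R ^ 2) * I ≤ δ := by
    rw [div_mul_eq_mul_div, div_le_iff₀ hR2]
    have h5 : A * I = δ * R := by
      rw [hR]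
      field_simp
    rw [h5]
    refine mul_le_mul_of_nonneg_left ?_ hδ.le
    nlinarith [sq_nonneg (R - 1)]
  linarith


theorem open_core {s γ : ℝ} {b : ℝ → ℝ} (hL : ThmL d γ s b) (hd : 2 ≤ d) (hs : 0 < s) (h0 : 0 ≤ γ + 2 * s) (hs2 : 2 * s < 1)
    (h2 : γ + 2 * s ≤ 2) (hb : IsKernel d s b)
    {a k : ℝ} {u₀ : Vec d} (ha : 0 < a) (hk : 0 < k) (C : ℕ → ℝ) {m : ℝ} (hm : 0 < m)
    {η : ℝ} (hη : 0 < η) {S : Set (ℕ → ℝ)}
    (hgen : ∀ (A₁ R₁ m' : ℝ), 0 < m' → ∃ U : ℕ → ℝ, ∀ B ∈ S, ∀ (T : ℝ) (f : ℝ → Vec d → Vec d → ℝ),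
      IsBoltzmannSol γ b T f → (∀ (N : ℕ) (x v : Vec d), (1 + ‖v‖) ^ N * f 0 x v ≤ B N) →
      (∀ t ∈ Ico 0 T, ∀ x v, f t x v ≤ A₁ * Wp (d + 10) v) →
      (∀ t ∈ Ico 0 T, ∀ x, m' ≤ ∫ z in {z : Vec d | nsq z ≤ R₁ ^ 2}, f t x z) →
      ∀ t ∈ Ico 1 T, ∀ (N : ℕ) (x v : Vec d), (1 + ‖v‖) ^ N * f t x v ≤ U N) :
    ∃ δ > 0, ∀ B ∈ S, ∀ (T₁ : ℝ) (g : ℝ → Vec d → Vec d → ℝ), IsBoltzmannSol γ b T₁ g →
      (∀ x, 0 < ∫ v, g 0 x v) → (∃ α : ℝ, 2 * s < α ∧ α ≤ 1 ∧ HolData α (g 0)) →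
      ∀ T₀ ∈ Ico 1 T₁,
      (∀ t ∈ Icc 0 T₀, ∀ x, (∀ (N : ℕ) (v : Vec d), (1 + ‖v‖) ^ N * g t x v ≤ C N) ∧
        m ≤ ∫ v, g t x v) →
      (∀ x v, |g T₀ x v - mx a k u₀ v| ≤ δ) →
      (∀ t ∈ Ico T₀ T₁, ∀ x v, |g t x v - mx a k u₀ v| ≤ η) ∧
      ∃ ε > 0, ∃ m₀ > 0, ∃ (M₀ : ℝ) (U : ℕ → ℝ),
      ∀ (T : ℝ) (f : ℝ → Vec d → Vec d → ℝ), IsBoltzmannSol γ b T f →
        (∀ (N : ℕ) (x v : Vec d), (1 + ‖v‖) ^ N * f 0 x v ≤ B N) → (∀ x v, |f 0 x v - g 0 x v| ≤ ε) →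
        ∀ t ∈ Ico 0 T, ∀ x, HydroBounds m₀ M₀ M₀ M₀ (f t x) ∧
          (∀ (N : ℕ) (v : Vec d), (1 + ‖v‖) ^ N * f t x v ≤ U N) ∧
          (t < T₁ → ∀ v, |f t x v - g t x v| ≤ η) ∧ (T₀ ≤ t → ∀ v, |f t x v - mx a k u₀ v| ≤ η) := by
  -- the solution `g` after the time `T₀`
  obtain ⟨εg, hεg, Ug, mg, hmg, hgnear⟩ := near_eq20 hd hs h0 hs2 h2 hb ha hk u₀ C (half_pos hη)
  obtain ⟨U₀, hU₀d⟩ : ∃ U₀ : ℕ → ℝ, ∀ N, U₀ N = max (C N) (Ug N) := ⟨_, fun _ => rfl⟩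
  obtain ⟨m₁, hm₁d⟩ : ∃ m₁ : ℝ, m₁ = min m mg := ⟨_, rfl⟩
  have hm₁ : 0 < m₁ := by rw [hm₁d]; exact lt_min hm hmg
  obtain ⟨p, hp⟩ : ∃ p : ℕ, p = d + 10 := ⟨_, rfl⟩
  have hp' : d + 10 ≤ p := hp.ge
  obtain ⟨A₀, hA₀⟩ : ∃ A₀ : ℝ, A₀ = ((d : ℝ) + 1) ^ p * |U₀ (2 * p)| := ⟨_, rfl⟩
  have hA₀0 : 0 ≤ A₀ := by rw [hA₀]; positivity
  obtain ⟨R₁, hR₁⟩ := OvA_tail hp' hA₀0 (by linarith : 0 < m₁ / 4)
  obtain ⟨I, hI⟩ : ∃ I : ℝ, I = ∫ v : Vec d, Wp p v := ⟨_, rfl⟩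
  have hI0 : 0 ≤ I := by rw [hI]; exact integral_nonneg fun z => (Wp_pos p z).le
  have hWi : Integrable (Wp p : Vec d → ℝ) := OvA_Wint (by omega)
  obtain ⟨U₁, hU₁⟩ := hgen (A₀ + 1) R₁ (m₁ / 2) (half_pos hm₁)
  rw [← hp] at hU₁
  obtain ⟨ε', hε', U', m', hm', hnear⟩ := near_eq20 hd hs h0 hs2 h2 hb ha hk u₀ U₁ (half_pos hη)
  refine ⟨min εg (min (ε' / 2) (η / 2)), lt_min hεg (lt_min (half_pos hε') (half_pos hη)),
    fun B hB T₁ g hg hpos hol T₀ hT₀I hgb hgδ => ?_⟩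
  have hT₁ : T₀ < T₁ := hT₀I.2
  have hT₀1 : 1 ≤ T₀ := hT₀I.1
  have hT₀0 : 0 ≤ T₀ := by linarith
  have hW1 : ∀ (q : ℕ) (c : ℝ) (w : Vec d), 0 ≤ c → c * Wp q w ≤ c := fun q c w hc =>
    mul_le_of_le_one_right hc (Wp_le_one q w)
  have hg' : IsClassicalSol T₁ (fun t x => boltzQ γ b (g t x)) g := hg
  have hgs := Pool.Agent.H48.PI.boltz_shift hg hT₀0
  have hglate : ∀ t ∈ Ico T₀ T₁, ∀ x, (∀ (N : ℕ) (v : Vec d), (1 + ‖v‖) ^ N * g t x v ≤ Ug N) ∧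
      mg ≤ ∫ v, g t x v ∧ ∀ v, |g t x v - mx a k u₀ v| ≤ η / 2 * Wp (d + 11) v := by
    intro t ht x
    have hn := hgnear (T₁ - T₀) (fun τ => g (T₀ + τ)) hgs
      (fun N y w => by simpa using (hgb T₀ ⟨hT₀0, le_rfl⟩ y).1 N w)
      (fun y w => by simpa using (hgδ y w).trans (min_le_left _ _))
      (t - T₀) ⟨by linarith [ht.1], by linarith [ht.2]⟩ x
    have e1 : T₀ + (t - T₀) = t := by ring
    simp only [e1] at hn
    exact hn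
  have hgW : ∀ t ∈ Ico T₀ T₁, ∀ x v, |g t x v - mx a k u₀ v| ≤ η / 2 := fun t ht x v =>
    ((hglate t ht x).2.2 v).trans (hW1 (d + 11) (η / 2) v (half_pos hη).le)
  refine ⟨fun t ht x v => (hgW t ht x v).trans (by linarith), ?_⟩
  have hUg : ∀ t ∈ Ico 0 T₁, ∀ x, (∀ (N : ℕ) (v : Vec d), (1 + ‖v‖) ^ N * g t x v ≤ U₀ N) ∧
      m₁ ≤ ∫ v, g t x v := by
    intro t ht x
    rcases le_or_gt t T₀ with h | h
    · refine ⟨fun N v => ?_, ?_⟩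
      · rw [hU₀d]
        exact ((hgb t ⟨ht.1, h⟩ x).1 N v).trans (le_max_left _ _)
      · rw [hm₁d]
        exact (min_le_left _ _).trans (hgb t ⟨ht.1, h⟩ x).2
    · refine ⟨fun N v => ?_, ?_⟩
      · rw [hU₀d]
        exact ((hglate t ⟨h.le, ht.2⟩ x).1 N v).trans (le_max_right _ _)
      · rw [hm₁d]
        exact (min_le_right _ _).trans (hglate t ⟨h.le, ht.2⟩ x).2.1
  obtain ⟨η₁, hη₁, hη₁1, hη₁I⟩ : ∃ η₁ : ℝ, 0 < η₁ ∧ η₁ ≤ 1 ∧ η₁ * I ≤ m₁ / 4 := by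
    refine ⟨min 1 (m₁ / 4 / (I + 1)), lt_min one_pos (by positivity), min_le_left _ _, ?_⟩
    calc min 1 (m₁ / 4 / (I + 1)) * I ≤ m₁ / 4 / (I + 1) * I :=
          mul_le_mul_of_nonneg_right (min_le_right _ _) hI0
      _ = m₁ / 4 * (I / (I + 1)) := by ring
      _ ≤ m₁ / 4 * 1 := mul_le_mul_of_nonneg_left ((div_le_one (by linarith)).2 (by linarith))
          (by linarith)
      _ = m₁ / 4 := mul_one _
  obtain ⟨T₂, hT₂⟩ : ∃ T₂ : ℝ, T₂ = (T₀ + T₁) / 2 := ⟨_, rfl⟩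
  have hT₂a : T₀ < T₂ := by rw [hT₂]; linarith
  have hT₂b : T₂ < T₁ := by rw [hT₂]; linarith
  obtain ⟨η₂, hη₂, hη₂a, hη₂b, hη₂c⟩ : ∃ η₂ : ℝ, 0 < η₂ ∧ η₂ ≤ η₁ ∧ η₂ ≤ ε' / 2 ∧ η₂ ≤ η / 2 :=
    ⟨min η₁ (min (ε' / 2) (η / 2)), lt_min hη₁ (lt_min (half_pos hε') (half_pos hη)), min_le_left _ _,
      (min_le_right _ _).trans (min_le_left _ _), (min_le_right _ _).trans (min_le_right _ _)⟩
  obtain ⟨ε, hε, U₂, hst⟩ := stabO hL hd hs h0 hs2 h2 hb hT₂b hg hpos hol hm₁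
    (fun t ht x => (hUg t ht x).2) B hp' hη₂
  obtain ⟨M₀, hM₀⟩ := Pool.Agent.H48.PI.hydro_of_U d (fun N => max (U₂ N) (U' N))
  refine ⟨ε, hε, min (m₁ / 2) m', lt_min (half_pos hm₁) hm', M₀, fun N => max (U₂ N) (U' N),
    fun T f hf hfB hfε => ?_⟩
  have hf' : IsClassicalSol T (fun t x => boltzQ γ b (f t x)) f := hf
  -- closeness on the first part
  have hA := hst (min T T₂) (min_le_right _ _) f
    (Pool.Agent.H48.PI.sol_restrict hf' (min_le_left _ _)) hfB hfε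
  -- decay, mass and closeness on the whole interval
  have key : ∀ t ∈ Ico 0 T, ∀ x, (∀ (N : ℕ) (v : Vec d), (1 + ‖v‖) ^ N * f t x v ≤
      max (U₂ N) (U' N)) ∧ min (m₁ / 2) m' ≤ ∫ v, f t x v ∧
      (t < T₁ → ∀ v, |f t x v - g t x v| ≤ η) ∧ (T₀ ≤ t → ∀ v, |f t x v - mx a k u₀ v| ≤ η) := by
    intro t ht x
    rcases lt_or_ge t T₂ with htT | htT
    · obtain ⟨j1, j2, j3⟩ := hA t ⟨ht.1, lt_min ht.2 htT⟩ x
      refine ⟨fun N v => (j1 N v).trans (le_max_left _ _), (min_le_left _ _).trans j2,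
        fun _ v => ?_, fun h v => ?_⟩
      · have j4 := (j3 v).trans (hW1 p η₂ v hη₂.le)
        linarith
      · have j4 := (j3 v).trans (hW1 p η₂ v hη₂.le)
        have j5 := hgW t ⟨h, htT.trans hT₂b⟩ x v
        have j6 := abs_sub_le (f t x v) (g t x v) (mx a k u₀ v)
        linarith
    · have hT2T : T₂ ≤ T := htT.trans ht.2.le
      have hTT : min T T₂ = T₂ := min_eq_right hT2T
      rw [hTT] at hA
      have hfr : IsClassicalSol T₂ (fun t x => boltzQ γ b (f t x)) f :=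
        Pool.Agent.H48.PI.sol_restrict hf' hT2T
      have hclose : ∀ τ ∈ Ico 0 T₂, ∀ y w, |f τ y w - g τ y w| ≤ η₂ * Wp p w :=
        fun τ hτ y w => (hA τ hτ y).2.2 w
      have hgA : ∀ τ ∈ Ico 0 T₁, ∀ y w, g τ y w ≤ A₀ * Wp p w := by
        intro τ hτ y w
        rw [hA₀]
        exact OvA_le (hg'.nonneg τ hτ y w) ((hUg τ hτ y).1 (2 * p) w)
      have hsub : ∀ τ ∈ Ico 0 T₂, τ ∈ Ico 0 T₁ := fun τ hτ => ⟨hτ.1, hτ.2.trans hT₂b⟩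
      have hfA : ∀ τ ∈ Ico 0 T₂, ∀ y w, f τ y w ≤ (A₀ + 1) * Wp p w := by
        intro τ hτ y w
        have j1 := (abs_le.1 (hclose τ hτ y w)).2
        have j2 := hgA τ (hsub τ hτ) y w
        have j3 : η₂ * Wp p w ≤ 1 * Wp p w :=
          mul_le_mul_of_nonneg_right (hη₂a.trans hη₁1) (Wp_pos p w).le
        linarith
      have hfm : ∀ τ ∈ Ico 0 T₂, ∀ y,
          m₁ / 2 ≤ ∫ z in {z : Vec d | nsq z ≤ R₁ ^ 2}, f τ y z := by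
        intro τ hτ y
        have ig := OvA_int hg' (hsub τ hτ) y
        have if' := OvA_int hfr hτ y
        have j1 := hR₁ (g τ y) ig (hgA τ (hsub τ hτ) y)
        have j2 : m₁ ≤ ∫ v, g τ y v := (hUg τ (hsub τ hτ) y).2
        have j3 : (∫ z in {z : Vec d | nsq z ≤ R₁ ^ 2}, g τ y z) -
            (∫ z in {z : Vec d | nsq z ≤ R₁ ^ 2}, η₁ * Wp p z) ≤
            ∫ z in {z : Vec d | nsq z ≤ R₁ ^ 2}, f τ y z := by
          rw [← integral_sub ig.integrableOn (hWi.const_mul η₁).integrableOn]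
          refine integral_mono (ig.integrableOn.sub (hWi.const_mul η₁).integrableOn)
            if'.integrableOn fun z => ?_
          have j4 := (abs_le.1 (hclose τ hτ y z)).1
          have j5 : η₂ * Wp p z ≤ η₁ * Wp p z :=
            mul_le_mul_of_nonneg_right hη₂a (Wp_pos p z).le
          show g τ y z - η₁ * Wp p z ≤ f τ y z
          linarith
        have j6 : ∫ z in {z : Vec d | nsq z ≤ R₁ ^ 2}, η₁ * Wp p z ≤ η₁ * I := by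
          rw [hI, ← integral_const_mul]
          exact setIntegral_le_integral (hWi.const_mul η₁) (Eventually.of_forall fun z =>
            mul_nonneg hη₁.le (Wp_pos p z).le)
        linarith
      have hdT := hU₁ B hB T₂ f hfr hfB hfA hfm T₀ ⟨hT₀1, hT₂a⟩
      have hdist : ∀ y w, |f T₀ y w - mx a k u₀ w| ≤ ε' := by
        intro y w
        have j1 := (hclose T₀ ⟨hT₀0, hT₂a⟩ y w).trans (hW1 p η₂ w hη₂.le)
        have j2 := (hgδ y w).trans ((min_le_right _ _).trans (min_le_left _ _))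
        have j5 := abs_sub_le (f T₀ y w) (g T₀ y w) (mx a k u₀ w)
        linarith
      have hsh := Pool.Agent.H48.PI.boltz_shift hf hT₀0
      have hn := hnear (T - T₀) (fun τ => f (T₀ + τ)) hsh
        (fun N y w => by simpa using hdT N y w) (fun y w => by simpa using hdist y w)
        (t - T₀) ⟨by linarith, by linarith [ht.2]⟩ x
      have e1 : T₀ + (t - T₀) = t := by ring
      simp only [e1] at hn
      have hn3 : ∀ v, |f t x v - mx a k u₀ v| ≤ η / 2 := fun v =>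
        (hn.2.2 v).trans (hW1 (d + 11) (η / 2) v (half_pos hη).le)
      refine ⟨fun N v => (hn.1 N v).trans (le_max_right _ _), (min_le_right _ _).trans hn.2.1,
        fun h v => ?_, fun _ v => ?_⟩
      · have j4 := hn3 v
        have j5 := hgW t ⟨hT₂a.le.trans htT, h⟩ x v
        have j6 := abs_sub_le (f t x v) (mx a k u₀ v) (g t x v)
        rw [abs_sub_comm (mx a k u₀ v) (g t x v)] at j6
        linarith
      · have j4 := hn3 v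
        linarith
  intro t ht x
  obtain ⟨g1, g2, g3⟩ := hM₀ T _ f hf' (fun N τ hτ y w => (key τ hτ y).1 N w) t ht x
  exact ⟨⟨(key t ht x).2.1, g1, g2, g3⟩, (key t ht x).1, (key t ht x).2.2⟩

end Pool.Agent.H85.OV
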