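import Pool.Agent.H85.OV.OvW

/-!
# Openness of the basin of equilibrium around global solutions, soft and hard potentials

As H85/OP/OpD with `0 ≤ γ + 2 s` in place of `0 ≤ γ`.
-/

set_option autoImplicit false

open MeasureTheory Set Filter Topology Pool.Agent.H25.Kin Pool.Agent.H48.PL Pool.Agent.H48.PD
open Pool.Agent.H82.BK Pool.Agent.H82.CM Pool.Agent.H48.PR Pool.Agent.H93.CM
open Pool.Agent.H48.NE (mx)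
open Pool.Agent.H85.HW (Sch2 avX avX_pos avX_hol)
open Pool.Agent.H85.OP (Close)
open Pool.Agent.H71.VM (near_eq20)

namespace Pool.Agent.H85.OV

variable {d : ℕ}

/-- if `g` is once arbitrarily close to the Maxwellian then also after the time `1` -/
private lemma OvD_late {s γ : ℝ} (hd : 2 ≤ d) (hs : 0 < s) (h0 : 0 ≤ γ + 2 * s) (hs2 : 2 * s < 1)
    (h2 : γ + 2 * s ≤ 2) {b : ℝ → ℝ} (hb : IsKernel d s b)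
    {a k : ℝ} {u₀ : Vec d} (ha : 0 < a) (hk : 0 < k) {g : ℝ → Vec d → Vec d → ℝ}
    (hg : ∀ T, IsBoltzmannSol γ b T g) {C : ℕ → ℝ}
    (hC : ∀ t, 0 ≤ t → ∀ x, ∀ (N : ℕ) (v : Vec d), (1 + ‖v‖) ^ N * g t x v ≤ C N)
    (hc : ∀ δ > 0, ∃ t, 0 ≤ t ∧ ∀ x v, |g t x v - mx a k u₀ v| ≤ δ) {δ : ℝ} (hδ : 0 < δ) :
    ∃ t, 1 ≤ t ∧ ∀ x v, |g t x v - mx a k u₀ v| ≤ δ := by
  obtain ⟨ε, hε, U, m₀, hm₀, h⟩ := near_eq20 hd hs h0 hs2 h2 hb ha hk u₀ C hδ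
  obtain ⟨t, ht, htc⟩ := hc (min ε δ) (lt_min hε hδ)
  rcases le_or_gt 1 t with h1 | h1
  · exact ⟨t, h1, fun x v => (htc x v).trans (min_le_right _ _)⟩
  · refine ⟨1, le_rfl, fun x v => ?_⟩
    have hsh := Pool.Agent.H48.PI.boltz_shift (hg 2) ht
    have hn := h (2 - t) (fun τ => g (t + τ)) hsh
      (fun N y w => by simpa using hC t ht y N w)
      (fun y w => by simpa using (htc y w).trans (min_le_left _ _))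
      (1 - t) ⟨by linarith, by linarith⟩ x
    have e1 : t + (1 - t) = 1 := by ring
    simp only [e1] at hn
    exact (hn.2.2 v).trans (mul_le_of_le_one_right hδ.le (Wp_le_one _ v))

theorem open_global {s γ : ℝ} {b : ℝ → ℝ} (hL : ThmL d γ s b) (hd : 2 ≤ d) (hs : 0 < s) (h0 : 0 ≤ γ + 2 * s) (hs2 : 2 * s < 1)
    (h2 : γ + 2 * s ≤ 2) (hb : IsKernel d s b)
    {a k : ℝ} {u₀ : Vec d} (ha : 0 < a) (hk : 0 < k) {g : ℝ → Vec d → Vec d → ℝ}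
    (hg : ∀ T, IsBoltzmannSol γ b T g) (hpos : ∀ x, 0 < ∫ v, g 0 x v)
    (hol : ∃ α : ℝ, 2 * s < α ∧ α ≤ 1 ∧ HolData α (g 0)) {C : ℕ → ℝ} {m : ℝ} (hm : 0 < m)
    (hC : ∀ t, 0 ≤ t → ∀ x, (∀ (N : ℕ) (v : Vec d), (1 + ‖v‖) ^ N * g t x v ≤ C N) ∧
      m ≤ ∫ v, g t x v)
    (hc : ∀ δ > 0, ∃ t, 0 ≤ t ∧ ∀ x v, |g t x v - mx a k u₀ v| ≤ δ) {η : ℝ} (hη : 0 < η)
    (B : ℕ → ℝ) :
    ∃ Ts : ℝ, ∃ ε > 0, ∃ m₀ > 0, ∃ (M₀ : ℝ) (U : ℕ → ℝ),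
      ∀ (T : ℝ) (f : ℝ → Vec d → Vec d → ℝ), IsBoltzmannSol γ b T f →
        (∀ (N : ℕ) (x v : Vec d), (1 + ‖v‖) ^ N * f 0 x v ≤ B N) → (∀ x v, |f 0 x v - g 0 x v| ≤ ε) →
        ∀ t ∈ Ico 0 T, ∀ x, HydroBounds m₀ M₀ M₀ M₀ (f t x) ∧
          (∀ (N : ℕ) (v : Vec d), (1 + ‖v‖) ^ N * f t x v ≤ U N) ∧
          (∀ v, |f t x v - g t x v| ≤ η) ∧ (Ts ≤ t → ∀ v, |f t x v - mx a k u₀ v| ≤ η) := by
  obtain ⟨δ, hδ, h⟩ := open_all hL hd hs h0 hs2 h2 hb ha hk (u₀ := u₀) C hm (half_pos hη)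
  obtain ⟨T₀, hT₀, hcl⟩ := OvD_late hd hs h0 hs2 h2 hb ha hk hg (fun t ht x => (hC t ht x).1) hc (hδ B)
  have hC' : Close (mx a k u₀) C m (δ B) T₀ g := ⟨hT₀, fun t ht x => hC t ht.1 x, hcl⟩
  have hgW : ∀ t, T₀ ≤ t → ∀ x v, |g t x v - mx a k u₀ v| ≤ η / 2 := fun t ht x v =>
    (h B (t + 1) g (hg _) hpos hol T₀ (by linarith)).1 hC' t ⟨ht, by linarith⟩ x v
  obtain ⟨-, ε, hε, m₀, hm₀, M₀, U, h3⟩ := h B (T₀ + 1) g (hg _) hpos hol T₀ (by linarith)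
  refine ⟨T₀, ε, hε, m₀, hm₀, M₀, U, fun T f hf hfB hfε t ht x => ?_⟩
  obtain ⟨h4, h5, h6, h7⟩ := h3 T f (Or.inr hC') hf hfB hfε t ht x
  refine ⟨h4, h5, fun v => ?_, fun h8 v => (h7 h8 v).trans (by linarith)⟩
  rcases lt_or_ge t T₀ with h8 | h8
  · exact (h6 (by linarith) v).trans (by linarith)
  · have h9 := h7 h8 v
    have h10 := hgW t h8 x v
    rw [abs_le] at h9 h10 ⊢
    constructor <;> linarith [h9.1, h9.2, h10.1, h10.2]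

theorem open_global_osc {h : Vec d → Vec d → Vec d → ℝ} {s γ : ℝ} {b : ℝ → ℝ} (hL : ThmL d γ s b) (hd : 2 ≤ d) (hs : 0 < s)
    (h0 : 0 ≤ γ + 2 * s) (hs2 : 2 * s < 1) (h2 : γ + 2 * s ≤ 2) (hb : IsKernel d s b)
    (hh : Sch2 h) (hn : ∀ x y v, 0 ≤ h x y v) (hv : ∀ x y, 0 < ∫ v, h x y v)
    {a k : ℝ} {u₀ : Vec d} (ha : 0 < a) (hk : 0 < k) {g : ℝ → Vec d → Vec d → ℝ}
    (hg : ∀ T, IsBoltzmannSol γ b T g) (hg0 : g 0 = avX h) {C : ℕ → ℝ} {m : ℝ} (hm : 0 < m)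
    (hC : ∀ t, 0 ≤ t → ∀ x, (∀ (N : ℕ) (v : Vec d), (1 + ‖v‖) ^ N * g t x v ≤ C N) ∧
      m ≤ ∫ v, g t x v)
    (hc : ∀ δ > 0, ∃ t, 0 ≤ t ∧ ∀ x v, |g t x v - mx a k u₀ v| ≤ δ) {η : ℝ} (hη : 0 < η)
    (B : ℕ → ℝ) :
    ∃ Ts : ℝ, ∀ τ > 0, ∃ ε > 0, ∃ n₀ : ℕ, ∃ m₁ > 0,
      ∃ (M₀ : ℝ) (U : ℕ → ℝ), ∀ N ≥ n₀, ∃ m₀ > 0,
      ∀ (T : ℝ) (f : ℝ → Vec d → Vec d → ℝ), IsBoltzmannSol γ b T f →
        (∀ (M : ℕ) (x v : Vec d), (1 + ‖v‖) ^ M * f 0 x v ≤ B M) →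
        (∀ x v, |f 0 x v - h x ((N : ℝ) • x) v| ≤ ε) →
        ∀ t ∈ Ico 0 T, ∀ x, HydroBounds m₀ M₀ M₀ M₀ (f t x) ∧
          (∀ (M : ℕ) (v : Vec d), (1 + ‖v‖) ^ M * f t x v ≤ U M) ∧
          (τ ≤ t → m₁ ≤ ∫ v, f t x v) ∧ (τ ≤ t → ∀ v, |f t x v - g t x v| ≤ η) ∧
          (Ts ≤ t → ∀ v, |f t x v - mx a k u₀ v| ≤ η) := by
  have hpos : ∀ x, 0 < ∫ v, g 0 x v := fun x => by
    rw [hg0]
    exact avX_pos hh hn hv x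
  have hol : ∃ α : ℝ, 2 * s < α ∧ α ≤ 1 ∧ HolData α (g 0) :=
    ⟨1, hs2, le_rfl, by rw [hg0]; exact avX_hol hh⟩
  obtain ⟨δ₁, hδ₁, h₁⟩ := open_all hL hd hs h0 hs2 h2 hb ha hk (u₀ := u₀) C hm (half_pos hη)
  obtain ⟨δ₂, hδ₂, h₂⟩ := open_osc hL hd hs h0 hs2 h2 hb hh hn hv ha hk (u₀ := u₀) C hm (half_pos hη)
  obtain ⟨T₀, hT₀, hcl⟩ := OvD_late hd hs h0 hs2 h2 hb ha hk hg (fun t ht x => (hC t ht x).1) hc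
    (lt_min (hδ₁ B) (hδ₂ B))
  have hC1 : Close (mx a k u₀) C m (δ₁ B) T₀ g :=
    ⟨hT₀, fun t ht x => hC t ht.1 x, fun x v => (hcl x v).trans (min_le_left _ _)⟩
  have hC2 : Close (mx a k u₀) C m (δ₂ B) T₀ g :=
    ⟨hT₀, fun t ht x => hC t ht.1 x, fun x v => (hcl x v).trans (min_le_right _ _)⟩
  have hgW : ∀ t, T₀ ≤ t → ∀ x v, |g t x v - mx a k u₀ v| ≤ η / 2 := fun t ht x v =>
    (h₁ B (t + 1) g (hg _) hpos hol T₀ (by linarith)).1 hC1 t ⟨ht, by linarith⟩ x v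
  refine ⟨T₀, fun τ hτ => ?_⟩
  obtain ⟨ε, hε, n₀, m₁, hm₁, M₀, U, h3⟩ := h₂ B (T₀ + 1) g (hg _) hg0 T₀ (by linarith) τ hτ
  refine ⟨ε, hε, n₀, m₁, hm₁, M₀, U, fun N hN => ?_⟩
  obtain ⟨m₀, hm₀, h4⟩ := h3 N hN
  refine ⟨m₀, hm₀, fun T f hf hfB hfε t ht x => ?_⟩
  obtain ⟨h5, h6, h7, h8, h9⟩ := h4 T f (Or.inr hC2) hf hfB hfε t ht x
  refine ⟨h5, h6, h7, fun hτt v => ?_, fun h10 v => (h9 h10 v).trans (by linarith)⟩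
  rcases lt_or_ge t T₀ with h10 | h10
  · exact (h8 hτt (by linarith) v).trans (by linarith)
  · have h11 := h9 h10 v
    have h12 := hgW t h10 x v
    rw [abs_le] at h11 h12 ⊢
    constructor <;> linarith [h11.1, h11.2, h12.1, h12.2]

end Pool.Agent.H85.OV
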