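import Pool.Agent.H85.OV.OvD
import Pool.Agent.H15.OB.Fin

/-!
# Finite horizon: bounds on a finite time interval imply bounds for the whole life, for the solution and for all solutions near it

`hor_close`: `orbit_unif` (H15/OB/Fin) for solutions with bounds on `[0,L]` only. `horizon_self`: uniform bounds for the solution itself
(`near_eq20`). `horizon_near`, `horizon_osc`: all solutions near `g(0)`, or near `h(x, n x, v)` with average `g(0)` (`open_all`, `open_osc`).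
-/

set_option autoImplicit false

open MeasureTheory Set Filter Topology Pool.Agent.H25.Kin Pool.Agent.H48.PL Pool.Agent.H48.PD
open Pool.Agent.H82.BK Pool.Agent.H82.CM Pool.Agent.H48.PR Pool.Agent.H93.CM
open Pool.Agent.H48.NE (mx)
open Pool.Agent.H85.HW (Sch2 avX avX_pos avX_hol)
open Pool.Agent.H85.OP (Close)
open Pool.Agent.H71.VM (near_eq20)
open Pool.Agent.H15.OB (Md SB DisTh orbit_unif)
open Pool.Agent.H48.CV (EqM)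

namespace Pool.Agent.H85.OV

variable {d : ℕ}

/-- bounds on `[0,L]`: decay constants `C`, mass density at least `m`, modulus of continuity `r` for `t ≥ 1` -/
def BdOn {d : ℕ} (C : ℕ → ℝ) (m : ℝ) (r : ℝ → ℝ) (L T₁ : ℝ) (g : ℝ → Vec d → Vec d → ℝ) : Prop :=
  (∀ t ∈ Ico 0 T₁, t ≤ L → ∀ x, (∀ (N : ℕ) (v : Vec d), (1 + ‖v‖) ^ N * g t x v ≤ C N) ∧
    m ≤ ∫ v, g t x v) ∧ ∀ t ∈ Ico 1 T₁, t ≤ L → Md r (g t)

theorem hor_close {γ : ℝ} {b : ℝ → ℝ}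
    (HD : DisTh d (boltzQ γ b) (Pool.Agent.H48.PI.Dn γ b)) {a k : ℝ} {u₀ : Vec d} (ha : 0 < a) (hk : 0 < k)
    (C : ℕ → ℝ) {m : ℝ} (hm : 0 < m) (r : ℝ → ℝ) {δ : ℝ} (hδ : 0 < δ) :
    ∃ L : ℝ, 1 ≤ L ∧ ∀ (T₁ : ℝ) (g : ℝ → Vec d → Vec d → ℝ), IsBoltzmannSol γ b T₁ g → L < T₁ →
      BdOn C m r L T₁ g → EqM a k u₀ (g 0) →
      ∃ T₀ ∈ Icc 1 L, ∀ x v, |g T₀ x v - mx a k u₀ v| ≤ δ := by
  obtain ⟨n, hn, h⟩ := orbit_unif HD C hm r ha hk u₀ hδ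
  refine ⟨n + 1, by linarith, fun T₁ g hg hT hb hE => ?_⟩
  have hg' : IsClassicalSol T₁ (fun t x => boltzQ γ b (g t x)) g := hg
  have hgr : IsClassicalSol (n + 1) (fun t x => boltzQ γ b (g t x)) g :=
    Pool.Agent.H48.PI.sol_restrict hg' hT.le
  obtain ⟨t, ht, h1⟩ := h (n + 1) g hgr
    (fun t ht N x v => (hb.1 t ⟨ht.1, ht.2.trans hT⟩ ht.2.le x).1 N v)
    (fun t ht => ⟨by
        have ht' : t ∈ Ico 0 T₁ := ⟨by linarith [ht.1], ht.2.trans hT⟩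
        have h1 : Continuous fun q : Vec d × Vec d => ((t, q.1, q.2) : ℝ × Vec d × Vec d) := by
          fun_prop
        exact hg'.isCont.comp_continuous h1 fun q => ⟨ht', mem_univ _⟩,
      fun x v => hg'.nonneg t ⟨by linarith [ht.1], ht.2.trans hT⟩ x v,
      (Pool.Agent.H15.AV.sol_slice hg' ⟨by linarith [ht.1], ht.2.trans hT⟩).per,
      fun N x v => (hb.1 t ⟨by linarith [ht.1], ht.2.trans hT⟩ ht.2.le x).1 N v,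
      fun x => (hb.1 t ⟨by linarith [ht.1], ht.2.trans hT⟩ ht.2.le x).2,
      hb.2 t ⟨ht.1, ht.2.trans hT⟩ ht.2.le⟩) hE (by linarith)
  exact ⟨t, ⟨ht.1, by linarith [ht.2]⟩, h1⟩

/-- the bounds of `g` on `[0,L]` imply bounds on the whole interval of existence; the constants depend on `C`, `m`, `r` and the
invariants only -/
theorem horizon_self {s γ : ℝ} {b : ℝ → ℝ}
    (HD : DisTh d (boltzQ γ b) (Pool.Agent.H48.PI.Dn γ b)) (hd : 2 ≤ d) (hs : 0 < s)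
    (h0 : 0 ≤ γ + 2 * s) (hs2 : 2 * s < 1) (h2 : γ + 2 * s ≤ 2) (hb : IsKernel d s b)
    {a k : ℝ} {u₀ : Vec d} (ha : 0 < a) (hk : 0 < k)
    (C : ℕ → ℝ) {m : ℝ} (hm : 0 < m) (r : ℝ → ℝ) {η : ℝ} (hη : 0 < η) :
    ∃ L : ℝ, 1 ≤ L ∧ ∃ (U : ℕ → ℝ) (M₀ : ℝ), ∃ m₀ > 0,
      ∀ (T₁ : ℝ) (g : ℝ → Vec d → Vec d → ℝ), IsBoltzmannSol γ b T₁ g →
      BdOn C m r L T₁ g → EqM a k u₀ (g 0) →
      ∀ t ∈ Ico 0 T₁, ∀ x, HydroBounds m₀ M₀ M₀ M₀ (g t x) ∧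
        (∀ (N : ℕ) (v : Vec d), (1 + ‖v‖) ^ N * g t x v ≤ U N) ∧
        (L ≤ t → ∀ v, |g t x v - mx a k u₀ v| ≤ η) := by
  obtain ⟨ε₁, hε₁, U₁, m₁, hm₁, hnear⟩ := near_eq20 hd hs h0 hs2 h2 hb ha hk u₀ C hη
  obtain ⟨L, hL, hcl⟩ := hor_close HD ha hk (u₀ := u₀) C hm r hε₁
  obtain ⟨M₀, hM₀⟩ := Pool.Agent.H48.PI.hydro_of_U d (fun N => max (C N) (U₁ N))
  refine ⟨L, hL, fun N => max (C N) (U₁ N), M₀, min m m₁, lt_min hm hm₁, fun T₁ g hg hB hE => ?_⟩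
  have hg' : IsClassicalSol T₁ (fun t x => boltzQ γ b (g t x)) g := hg
  have key : ∀ t ∈ Ico 0 T₁, ∀ x, (∀ (N : ℕ) (v : Vec d),
      (1 + ‖v‖) ^ N * g t x v ≤ max (C N) (U₁ N)) ∧ min m m₁ ≤ ∫ v, g t x v ∧
      (L ≤ t → ∀ v, |g t x v - mx a k u₀ v| ≤ η) := by
    intro t ht x
    rcases lt_or_ge L T₁ with hLT | hLT
    · obtain ⟨T₀, hT₀, hδ⟩ := hcl T₁ g hg hLT hB hE
      have hT₀0 : 0 ≤ T₀ := by linarith [hT₀.1]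
      rcases lt_or_ge t T₀ with h | h
      · obtain ⟨j1, j2⟩ := hB.1 t ht (h.le.trans hT₀.2) x
        exact ⟨fun N v => (j1 N v).trans (le_max_left _ _), (min_le_left _ _).trans j2,
          fun h' => absurd (h.trans_le hT₀.2) (not_lt.2 h')⟩
      · have hsh := Pool.Agent.H48.PI.boltz_shift hg hT₀0
        have hn := hnear (T₁ - T₀) (fun τ => g (T₀ + τ)) hsh
          (fun N y w => by
            simpa using (hB.1 T₀ ⟨hT₀0, hT₀.2.trans_lt hLT⟩ hT₀.2 y).1 N w)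
          (fun y w => by simpa using hδ y w)
          (t - T₀) ⟨by linarith, by linarith [ht.2]⟩ x
        have e1 : T₀ + (t - T₀) = t := by ring
        simp only [e1] at hn
        exact ⟨fun N v => (hn.1 N v).trans (le_max_right _ _), (min_le_right _ _).trans hn.2.1,
          fun _ v => (hn.2.2 v).trans (mul_le_of_le_one_right hη.le (Wp_le_one _ v))⟩
    · obtain ⟨j1, j2⟩ := hB.1 t ht (ht.2.le.trans hLT) x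
      exact ⟨fun N v => (j1 N v).trans (le_max_left _ _), (min_le_left _ _).trans j2,
        fun h' => absurd (ht.2.trans_le hLT) (not_lt.2 h')⟩
  intro t ht x
  obtain ⟨g1, g2, g3⟩ := hM₀ T₁ _ g hg' (fun N τ hτ y w => (key τ hτ y).1 N w) t ht x
  exact ⟨⟨(key t ht x).2.1, g1, g2, g3⟩, (key t ht x).1, (key t ht x).2.2⟩

theorem horizon_near {s γ : ℝ} {b : ℝ → ℝ} (hL : ThmL d γ s b)
    (HD : DisTh d (boltzQ γ b) (Pool.Agent.H48.PI.Dn γ b)) (hd : 2 ≤ d) (hs : 0 < s)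
    (h0 : 0 ≤ γ + 2 * s) (hs2 : 2 * s < 1) (h2 : γ + 2 * s ≤ 2) (hb : IsKernel d s b)
    {a k : ℝ} {u₀ : Vec d} (ha : 0 < a) (hk : 0 < k)
    (C : ℕ → ℝ) {m : ℝ} (hm : 0 < m) (r : ℝ → ℝ) {η : ℝ} (hη : 0 < η) (B : ℕ → ℝ) :
    ∃ L : ℝ, 1 ≤ L ∧ ∀ (T₁ : ℝ) (g : ℝ → Vec d → Vec d → ℝ), IsBoltzmannSol γ b T₁ g →
      (∀ x, 0 < ∫ v, g 0 x v) → (∃ α : ℝ, 2 * s < α ∧ α ≤ 1 ∧ HolData α (g 0)) → L < T₁ →
      BdOn C m r L T₁ g → EqM a k u₀ (g 0) →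
      ∃ ε > 0, ∃ m₀ > 0, ∃ (M₀ : ℝ) (U : ℕ → ℝ),
      ∀ (T : ℝ) (f : ℝ → Vec d → Vec d → ℝ), IsBoltzmannSol γ b T f →
        (∀ (N : ℕ) (x v : Vec d), (1 + ‖v‖) ^ N * f 0 x v ≤ B N) → (∀ x v, |f 0 x v - g 0 x v| ≤ ε) →
        ∀ t ∈ Ico 0 T, ∀ x, HydroBounds m₀ M₀ M₀ M₀ (f t x) ∧
          (∀ (N : ℕ) (v : Vec d), (1 + ‖v‖) ^ N * f t x v ≤ U N) ∧
          (t < T₁ → ∀ v, |f t x v - g t x v| ≤ η) ∧ (L ≤ t → ∀ v, |f t x v - mx a k u₀ v| ≤ η) := by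
  obtain ⟨δ, hδ, h⟩ := open_all hL hd hs h0 hs2 h2 hb ha hk (u₀ := u₀) C hm hη
  obtain ⟨L, hL1, hcl⟩ := hor_close HD ha hk (u₀ := u₀) C hm r (hδ B)
  refine ⟨L, hL1, fun T₁ g hg hpos hol hLT hB hE => ?_⟩
  obtain ⟨T₀, hT₀, hcl'⟩ := hcl T₁ g hg hLT hB hE
  have hC : Close (mx a k u₀) C m (δ B) T₀ g :=
    ⟨hT₀.1, fun t ht x => hB.1 t ⟨ht.1, (ht.2.trans hT₀.2).trans_lt hLT⟩ (ht.2.trans hT₀.2) x, hcl'⟩
  obtain ⟨-, ε, hε, m₀, hm₀, M₀, U, h3⟩ := h B T₁ g hg hpos hol T₀ (hT₀.2.trans_lt hLT)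
  refine ⟨ε, hε, m₀, hm₀, M₀, U, fun T f hf hfB hfε t ht x => ?_⟩
  obtain ⟨h4, h5, h6, h7⟩ := h3 T f (Or.inr hC) hf hfB hfε t ht x
  exact ⟨h4, h5, h6, fun h8 => h7 (hT₀.2.trans h8)⟩

theorem horizon_osc {h : Vec d → Vec d → Vec d → ℝ} {s γ : ℝ} {b : ℝ → ℝ} (hL : ThmL d γ s b)
    (HD : DisTh d (boltzQ γ b) (Pool.Agent.H48.PI.Dn γ b)) (hd : 2 ≤ d) (hs : 0 < s)
    (h0 : 0 ≤ γ + 2 * s) (hs2 : 2 * s < 1) (h2 : γ + 2 * s ≤ 2) (hb : IsKernel d s b)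
    (hh : Sch2 h) (hn : ∀ x y v, 0 ≤ h x y v) (hv : ∀ x y, 0 < ∫ v, h x y v)
    {a k : ℝ} {u₀ : Vec d} (ha : 0 < a) (hk : 0 < k)
    (C : ℕ → ℝ) {m : ℝ} (hm : 0 < m) (r : ℝ → ℝ) {η : ℝ} (hη : 0 < η) (B : ℕ → ℝ) :
    ∃ L : ℝ, 1 ≤ L ∧ ∀ (T₁ : ℝ) (g : ℝ → Vec d → Vec d → ℝ), IsBoltzmannSol γ b T₁ g →
      g 0 = avX h → L < T₁ → BdOn C m r L T₁ g → EqM a k u₀ (g 0) →
      ∀ τ > 0, ∃ ε > 0, ∃ n₀ : ℕ, ∃ m₁ > 0,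
      ∃ (M₀ : ℝ) (U : ℕ → ℝ), ∀ N ≥ n₀, ∃ m₀ > 0,
      ∀ (T : ℝ) (f : ℝ → Vec d → Vec d → ℝ), IsBoltzmannSol γ b T f →
        (∀ (M : ℕ) (x v : Vec d), (1 + ‖v‖) ^ M * f 0 x v ≤ B M) →
        (∀ x v, |f 0 x v - h x ((N : ℝ) • x) v| ≤ ε) →
        ∀ t ∈ Ico 0 T, ∀ x, HydroBounds m₀ M₀ M₀ M₀ (f t x) ∧
          (∀ (M : ℕ) (v : Vec d), (1 + ‖v‖) ^ M * f t x v ≤ U M) ∧
          (τ ≤ t → m₁ ≤ ∫ v, f t x v) ∧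
          (τ ≤ t → t < T₁ → ∀ v, |f t x v - g t x v| ≤ η) ∧
          (L ≤ t → ∀ v, |f t x v - mx a k u₀ v| ≤ η) := by
  obtain ⟨δ, hδ, h1⟩ := open_osc hL hd hs h0 hs2 h2 hb hh hn hv ha hk (u₀ := u₀) C hm hη
  obtain ⟨L, hL1, hcl⟩ := hor_close HD ha hk (u₀ := u₀) C hm r (hδ B)
  refine ⟨L, hL1, fun T₁ g hg hg0 hLT hB hE τ hτ => ?_⟩
  obtain ⟨T₀, hT₀, hcl'⟩ := hcl T₁ g hg hLT hB hE
  have hC : Close (mx a k u₀) C m (δ B) T₀ g :=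
    ⟨hT₀.1, fun t ht x => hB.1 t ⟨ht.1, (ht.2.trans hT₀.2).trans_lt hLT⟩ (ht.2.trans hT₀.2) x, hcl'⟩
  obtain ⟨ε, hε, n₀, m₁, hm₁, M₀, U, h3⟩ := h1 B T₁ g hg hg0 T₀ (hT₀.2.trans_lt hLT) τ hτ
  refine ⟨ε, hε, n₀, m₁, hm₁, M₀, U, fun N hN => ?_⟩
  obtain ⟨m₀, hm₀, h4⟩ := h3 N hN
  refine ⟨m₀, hm₀, fun T f hf hfB hfε t ht x => ?_⟩
  obtain ⟨h5, h6, h7, h8, h9⟩ := h4 T f (Or.inr hC) hf hfB hfε t ht x
  exact ⟨h5, h6, h7, h8, fun h10 => h9 (hT₀.2.trans h10)⟩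

end Pool.Agent.H85.OV
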