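import Pool.Agent.H85.OV.OvA
import Pool.Agent.H87.SV.ThmL

/-!
# The hypothesis `ThmL` is a theorem
-/

set_option autoImplicit false

open Pool.Agent.H25.Kin

namespace Pool.Agent.H85.OV

theorem thmL_hyp {d : ℕ} {s γ : ℝ} {b : ℝ → ℝ} (hd : 2 ≤ d) (hs : 0 < s) (h0 : 0 ≤ γ + 2 * s)
    (hs2 : 2 * s < 1) (h2 : γ + 2 * s ≤ 2) (hb : IsKernel d s b) : ThmL d γ s b := by
  obtain ⟨C, Ca, cb, HL⟩ := Pool.Agent.H82.CM.exists_hypL hd hs (by linarith) h0 h2 hb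
  intro α h3 h4 p hp T f hf hT hpos C₀ hdat
  exact Pool.Agent.H87.SV.thmL HL h0 hs2 h3 h4 hp hf hT hpos hdat

end Pool.Agent.H85.OV
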