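import Pool.Agent.H15.NE0.FinG0

/-!
# Module OvG: the invariants in plain form
-/

set_option autoImplicit false

open MeasureTheory Set Filter Topology Pool.Agent.H25.Kin Pool.Agent.H48.PL Pool.Agent.H48.PD Pool.Agent.H25.PN
open Pool.Agent.H82.BK Pool.Agent.H82.CM Pool.Agent.H48.PR Pool.Agent.H93.CM Pool.Agent.H48.NE
open Pool.Agent.H15.AV (Slice sol_slice)
open Pool.Agent.H48.CV

namespace Pool.Agent.H85.OV

variable {d : ℕ}

private lemma OvG_int {F : Vec d → Vec d → ℝ} (hF : Slice F) {φ : Vec d → ℝ} (hφ : Continuous φ)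
    {C : ℝ} (hC : 0 ≤ C) (hle : ∀ v, |φ v| ≤ C * (1 + ‖v‖) ^ 2) :
    ∫ q, F q.2 q.1 * φ q.1 ∂(nu d) = ∫ x in Icc (0 : Vec d) 1, ∫ v, F x v * φ v := by
  obtain ⟨C₂, hC₂⟩ := hF.decay (d + 1 + 2)
  have hc : Continuous fun q : Vec d × Vec d => F q.2 q.1 * φ q.1 :=
    (hF.cont.comp (continuous_snd.prodMk continuous_fst)).mul (hφ.comp continuous_fst)
  have hint : Integrable (fun q : Vec d × Vec d => F q.2 q.1 * φ q.1) (nu d) := by
    refine integrable_nu (C := C * C₂) hc.aestronglyMeasurable fun q => ?_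
    have h1 := hC₂ q.2 q.1
    have h2 : 0 < (1 + ‖q.1‖) ^ (d + 1) := pow_pos (w_pos _) _
    rw [abs_mul, abs_of_nonneg (hF.nonneg _ _)]
    unfold wt
    rw [← div_eq_mul_inv, le_div_iff₀ h2]
    have h3 := hle q.1
    have h4 := hF.nonneg q.2 q.1
    calc F q.2 q.1 * |φ q.1| * (1 + ‖q.1‖) ^ (d + 1)
        ≤ F q.2 q.1 * (C * (1 + ‖q.1‖) ^ 2) * (1 + ‖q.1‖) ^ (d + 1) :=
          mul_le_mul_of_nonneg_right (mul_le_mul_of_nonneg_left h3 h4) h2.le
      _ = C * ((1 + ‖q.1‖) ^ (d + 1 + 2) * F q.2 q.1) := by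
          rw [pow_add]
          ring
      _ ≤ C * C₂ := mul_le_mul_of_nonneg_left h1 hC
  rw [Pool.Agent.H15.AV.nu_integral hint]
  rfl

theorem eqm_of_plain {F : Vec d → Vec d → ℝ} (hS : Slice F) {a k : ℝ} {u : Vec d} (ha : 0 < a)
    (hk : 0 < k)
    (h1 : ∫ x in Icc (0 : Vec d) 1, ∫ v, F x v = ∫ v, a * Real.exp (-(k * nsq (v - u))))
    (h2 : ∀ i, ∫ x in Icc (0 : Vec d) 1, ∫ v, F x v * v i =
      ∫ v, a * Real.exp (-(k * nsq (v - u))) * v i)
    (h3 : ∫ x in Icc (0 : Vec d) 1, ∫ v, F x v * nsq v =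
      ∫ v, a * Real.exp (-(k * nsq (v - u))) * nsq v) : EqM a k u F := by
  have e1 := OvG_int hS (φ := fun _ => 1) continuous_const (C := 1) zero_le_one fun v => by
    have := norm_nonneg v
    rw [abs_one, one_mul]
    nlinarith
  have e2 := fun i => OvG_int hS (φ := fun v => v i) (continuous_apply i) (C := 1) zero_le_one fun v => by
    have h5 := norm_le_pi_norm v i
    rw [Real.norm_eq_abs] at h5
    have := norm_nonneg v
    nlinarith
  have e3 := OvG_int hS (φ := fun v => nsq v) continuous_sq (C := d) (Nat.cast_nonneg _) fun v => by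
    rw [abs_of_nonneg (sq_nonneg' v)]
    have h5 := sq_le v
    have h6 := norm_nonneg v
    have h7 : (0 : ℝ) ≤ d := Nat.cast_nonneg _
    nlinarith [mul_nonneg h7 h6]
  simp only [mul_one] at e1
  exact ⟨ha, hk, e1.trans h1, fun i => (e2 i).trans (h2 i), e3.trans h3⟩

end Pool.Agent.H85.OV
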